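import Pool.Agent.Lib.MP_45cb44_an.HyMain

/-! Every hyponormal or cohyponormal operator has a non-trivial closed invariant subspace. -/

namespace Pool.Agent.Retired.MP_45cb44_an.Seminormal

theorem result {H : Type*} [NormedAddCommGroup H] [InnerProductSpace ℂ H] [CompleteSpace H]
    (hH : ¬FiniteDimensional ℂ H) (T : H →L[ℂ] H)
    (hT : (∀ x, ‖ContinuousLinearMap.adjoint T x‖ ≤ ‖T x‖) ∨
      ∀ x, ‖T x‖ ≤ ‖ContinuousLinearMap.adjoint T x‖) :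
    ∃ M : Submodule ℂ H, IsClosed (M : Set H) ∧ (∀ x ∈ M, T x ∈ M) ∧ M ≠ ⊥ ∧ M ≠ ⊤ :=
  Pool.Agent.Lib.MP_45cb44_an.Hy.invariant_of_not_tr
    (Pool.Agent.Lib.MP_45cb44_an.Hy.not_tr_semi hH hT)

end Pool.Agent.Retired.MP_45cb44_an.Seminormal
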